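import Pool.Agent.H38.WT.Targets

/-!
# Row PT of the board `wt_modules`: the two paths are trees
-/

set_option autoImplicit false

noncomputable section

namespace Pool.Agent.H5.WT.PT

open Pool.Agent.H38.WT SimpleGraph

theorem pI_eq (n : ℕ) : pI n = pathGraph n := by
  ext i j
  rw [pathGraph_adj]
  exact Iff.rfl

theorem pI_conn (n : ℕ) (hn : 3 ≤ n) : (pI n).Connected := by
  obtain ⟨k, rfl⟩ : ∃ k, n = k + 1 := ⟨n - 1, by omega⟩
  rw [pI_eq]
  exact pathGraph_connected k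

/-- The edges of the path, numbered. -/
def ed (n : ℕ) (i : Fin (n - 1)) : (pI n).edgeSet :=
  ⟨s(⟨i, by have := i.2; omega⟩, ⟨i + 1, by have := i.2; omega⟩), by
    rw [SimpleGraph.mem_edgeSet]
    exact Or.inl rfl⟩

theorem ed_surj (n : ℕ) : Function.Surjective (ed n) := by
  rintro ⟨e, he⟩
  induction e using Sym2.ind with
  | _ i j =>
    rw [SimpleGraph.mem_edgeSet] at he
    have h1 := i.2
    have h2 := j.2
    rcases he with h | h
    · refine ⟨⟨i, by omega⟩, Subtype.ext ?_⟩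
      show s(_, _) = s(i, j)
      have e2 : (⟨(i : ℕ) + 1, by omega⟩ : Fin n) = j := Fin.ext h
      exact congrArg (fun w : Fin n => s(i, w)) e2
    · refine ⟨⟨j, by omega⟩, Subtype.ext ?_⟩
      show s(_, _) = s(i, j)
      have e2 : (⟨(j : ℕ) + 1, by omega⟩ : Fin n) = i := Fin.ext h
      exact (congrArg (fun w : Fin n => s(j, w)) e2).trans Sym2.eq_swap

theorem pI_tree (n : ℕ) (hn : 3 ≤ n) : (pI n).IsTree := by
  rw [isTree_iff_connected_and_card]
  refine ⟨pI_conn n hn, ?_⟩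
  have h1 : Nat.card (pI n).edgeSet ≤ n - 1 := by
    have := Nat.card_le_card_of_surjective (ed n) (ed_surj n)
    simpa using this
  have h2 := (pI_conn n hn).card_vert_le_card_edgeSet_add_one
  have h3 : Nat.card (Fin n) = n := by simp
  rw [h3] at h2 ⊢
  omega

theorem sw_eq (n : ℕ) (hn : 3 ≤ n) :
    sw n = Equiv.swap (⟨0, by omega⟩ : Fin n) ⟨1, by omega⟩ := by
  unfold sw
  rw [dif_pos (by omega : 2 ≤ n)]

theorem sw_val (n : ℕ) (hn : 3 ≤ n) (i : Fin n) :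
    (((sw n).symm i : Fin n) : ℕ) = if (i : ℕ) = 0 then (1 : ℕ) else if (i : ℕ) = 1 then (0 : ℕ) else (i : ℕ) := by
  rw [sw_eq n hn, Equiv.symm_swap, Equiv.swap_apply_def]
  by_cases h0 : (i : ℕ) = 0
  · rw [if_pos h0, if_pos (Fin.ext h0)]
  · rw [if_neg h0, if_neg (fun h => h0 (congrArg Fin.val h))]
    by_cases h1 : (i : ℕ) = 1
    · rw [if_pos h1, if_pos (Fin.ext h1)]
    · rw [if_neg h1, if_neg (fun h => h1 (congrArg Fin.val h))]

theorem pJ_eq (n : ℕ) (hn : 3 ≤ n) : pJ n = rel (sw n) (pI n) := by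
  ext i j
  show _ ↔ (((sw n).symm i : Fin n) : ℕ) + 1 = (((sw n).symm j : Fin n) : ℕ) ∨
    (((sw n).symm j : Fin n) : ℕ) + 1 = (((sw n).symm i : Fin n) : ℕ)
  rw [sw_val n hn i, sw_val n hn j]
  show ((i : ℕ) + 1 = j ∧ (i : ℕ) ≠ 1) ∨ ((j : ℕ) + 1 = i ∧ (j : ℕ) ≠ 1) ∨
    ((i : ℕ) = 0 ∧ (j : ℕ) = 2) ∨ ((i : ℕ) = 2 ∧ (j : ℕ) = 0) ↔ _
  generalize (i : ℕ) = a
  generalize (j : ℕ) = b
  split_ifs <;> constructor <;> intro h <;> first | omega | (simp at h <;> omega)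

theorem pf_PT : T_PT := by
  intro n hn
  have hJ := pJ_eq n hn
  refine ⟨pI_tree n hn, ?_, ?_, ?_, hJ⟩
  · rw [hJ]
    exact (Iso.comap (sw n).symm (pI n)).isTree_iff.2 (pI_tree n hn)
  · intro a b
    exact Iff.rfl
  · intro a b
    rw [hJ]
    show (pI n).Adj ((sw n).symm (sw n a)) ((sw n).symm (sw n b)) ↔ _
    rw [Equiv.symm_apply_apply, Equiv.symm_apply_apply]
    exact Iff.rfl

end Pool.Agent.H5.WT.PT
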